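import Pool.Agent.H929.BW.Stm
import Pool.Graph.R_seed8.TH3.IR.SMinor
import Pool.Graph.R_seed8.TH3.IR.Comap
import Pool.Graph.R_seed8.TH698.NagT3

/-!
# Cutting by a real hyperplane
-/

set_option autoImplicit false

namespace Pool.Agent.H349.BW

open Finset Pool.Agent.TH3.IR Pool.Agent.H929.BW
open Pool.Agent.TH176.Nag (tv cst)
open Filter Topology

/-! ### Integral directions -/

theorem exists_dirN {σ : Type} [Fintype σ] {S T : Set (ℤ × (σ → ℤ))} (hS : S.Finite)
    (hT : T.Finite) (c : σ → ℝ)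
    (h : ∀ m ∈ S, ∀ m' ∈ T, (m.1 : ℝ) + ∑ i, c i * (m.2 i : ℝ) <
      (m'.1 : ℝ) + ∑ i, c i * (m'.2 i : ℝ)) :
    ∃ (a0 : ℤ) (a : σ → ℤ), ∀ m ∈ S, ∀ m' ∈ T,
      a0 * m.1 + ∑ i, a i * m.2 i < a0 * m'.1 + ∑ i, a i * m'.2 i := by
  classical
  have hev : ∀ᶠ q in 𝓝 c, ∀ p ∈ (hS.toFinset ×ˢ hT.toFinset),
      (p.1.1 : ℝ) + ∑ i, q i * (p.1.2 i : ℝ) < (p.2.1 : ℝ) + ∑ i, q i * (p.2.2 i : ℝ) := by
    rw [Filter.eventually_all_finset]
    intro p hp
    rw [Finset.mem_product, Set.Finite.mem_toFinset, Set.Finite.mem_toFinset] at hp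
    have h1 := h _ hp.1 _ hp.2
    have h2 : Filter.Tendsto (fun q : σ → ℝ => ((p.2.1 : ℝ) + ∑ i, q i * (p.2.2 i : ℝ)) -
        ((p.1.1 : ℝ) + ∑ i, q i * (p.1.2 i : ℝ))) (𝓝 c)
        (𝓝 (((p.2.1 : ℝ) + ∑ i, c i * (p.2.2 i : ℝ)) -
        ((p.1.1 : ℝ) + ∑ i, c i * (p.1.2 i : ℝ)))) := by
      apply Continuous.tendsto
      fun_prop
    filter_upwards [h2.eventually (Ioi_mem_nhds (a := 0) (by linarith))] with q hq
    have hq' : (0 : ℝ) < ((p.2.1 : ℝ) + ∑ i, q i * (p.2.2 i : ℝ)) -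
        ((p.1.1 : ℝ) + ∑ i, q i * (p.1.2 i : ℝ)) := hq
    linarith
  obtain ⟨ε, hε, hball⟩ := Metric.eventually_nhds_iff.1 hev
  have hq : ∀ i, ∃ q : ℚ, c i < q ∧ (q : ℝ) < c i + ε := fun i => exists_rat_btwn (by linarith)
  choose q hq1 hq2 using hq
  have h3 := hball (y := fun i => (q i : ℝ)) (by
    rw [dist_pi_lt_iff hε]
    intro i
    rw [Real.dist_eq, abs_of_pos (by linarith [hq1 i])]
    linarith [hq2 i])
  obtain ⟨D, hD⟩ : ∃ D : ℕ, D = ∏ i, (q i).den := ⟨_, rfl⟩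
  have hD0 : 0 < D := by
    rw [hD]
    exact Finset.prod_pos fun i _ => (q i).den_pos
  have hdvd : ∀ i, (q i).den ∣ D := fun i => by
    rw [hD]
    exact Finset.dvd_prod_of_mem _ (Finset.mem_univ i)
  choose k hk using hdvd
  refine ⟨D, fun i => (q i).num * k i, fun m hm m' hm' => ?_⟩
  have h4 := h3 (m, m') (by
    rw [Finset.mem_product, Set.Finite.mem_toFinset, Set.Finite.mem_toFinset]
    exact ⟨hm, hm'⟩)
  simp only at h4
  have hDR : (0 : ℝ) < D := by exact_mod_cast hD0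
  have hqa : ∀ i, (((q i).num * k i : ℤ) : ℝ) = D * q i := by
    intro i
    have e1 : (q i : ℝ) * (q i).den = (q i).num := by exact_mod_cast Rat.mul_den_eq_num (q i)
    have e2 : (D : ℝ) = (q i).den * k i := by
      have := hk i
      exact_mod_cast this
    rw [e2]
    push_cast
    rw [← e1]
    ring
  have h5 := mul_lt_mul_of_pos_left h4 hDR
  have e3 : ∀ n : ℤ × (σ → ℤ), (D : ℝ) * ((n.1 : ℝ) + ∑ i, (q i : ℝ) * (n.2 i : ℝ)) =
      (((D : ℤ) * n.1 + ∑ i, ((q i).num * k i) * n.2 i : ℤ) : ℝ) := by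
    intro n
    push_cast
    rw [mul_add, Finset.mul_sum]
    congr 1
    refine Finset.sum_congr rfl fun i _ => ?_
    have := hqa i
    push_cast at this
    rw [this]
    ring
  rw [e3 m, e3 m'] at h5
  exact_mod_cast h5

/-! ### Shifts -/

section shift
variable {K : Type} [Field K] {σ : Type} [Fintype σ]

theorem PFS_mul_pow_fst {w : ℕ} {P : K × (σ → K) → K} (hP : P ∈ Comap.PFS K σ w) (c : K) (n : ℕ) :
    (fun u => (u.1 + c) ^ n * P u) ∈ Comap.PFS K σ (w + n) := by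
  induction n with
  | zero =>
    have e : (fun u : K × (σ → K) => (u.1 + c) ^ 0 * P u) = P := by
      funext u
      rw [pow_zero, one_mul]
    rw [e]
    exact hP
  | succ n ih =>
    have h1 := Comap.PFS_mul_aff ih c 1 (0 : σ → K)
    have e : (fun u : K × (σ → K) => (u.1 + c) ^ (n + 1) * P u) =
        fun u => (1 * u.1 + ∑ i, (0 : σ → K) i * u.2 i + c) * ((u.1 + c) ^ n * P u) := by
      funext u
      simp only [Pi.zero_apply, zero_mul, Finset.sum_const_zero]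
      ring
    rw [e]
    exact h1

theorem PFS_mul_pow_snd {w : ℕ} {P : K × (σ → K) → K} (hP : P ∈ Comap.PFS K σ w) (j : σ) (c : K)
    (n : ℕ) : (fun u => (u.2 j + c) ^ n * P u) ∈ Comap.PFS K σ (w + n) := by
  classical
  induction n with
  | zero =>
    have e : (fun u : K × (σ → K) => (u.2 j + c) ^ 0 * P u) = P := by
      funext u
      rw [pow_zero, one_mul]
    rw [e]
    exact hP
  | succ n ih =>
    have h1 := Comap.PFS_mul_aff ih c 0 (Pi.single j (1 : K) : σ → K)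
    have e : (fun u : K × (σ → K) => (u.2 j + c) ^ (n + 1) * P u) =
        fun u => (0 * u.1 + ∑ i, (Pi.single j (1 : K) : σ → K) i * u.2 i + c) *
          ((u.2 j + c) ^ n * P u) := by
      funext u
      have e2 : ∑ i, (Pi.single j (1 : K) : σ → K) i * u.2 i = u.2 j := by
        simp [Pi.single_apply]
      rw [e2]
      ring
    rw [e]
    exact h1

theorem PFS_shift {w α : ℕ} {γ : σ → ℕ} (h : α + ∑ i, γ i < w) (c : K) (p : σ → K) :
    (fun u : K × (σ → K) => (u.1 + c) ^ α * ∏ i, (u.2 i + p i) ^ γ i) ∈ Comap.PFS K σ w := by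
  classical
  have key : ∀ s : Finset σ, (fun u : K × (σ → K) => ∏ i ∈ s, (u.2 i + p i) ^ γ i) ∈
      Comap.PFS K σ (1 + ∑ i ∈ s, γ i) := by
    intro s
    induction s using Finset.induction_on with
    | empty =>
      have h1 := Comap.mem_PFS (K := K) (α := 0) (γ := (0 : σ → ℕ)) (w := 1) (by simp)
      have e : (fun u : K × (σ → K) => ∏ i ∈ (∅ : Finset σ), (u.2 i + p i) ^ γ i) =
          fun u => u.1 ^ 0 * ∏ i, u.2 i ^ (0 : σ → ℕ) i := by
        funext u
        simp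
      rw [e]
      simpa using h1
    | insert j s hj ih =>
      have h1 := PFS_mul_pow_snd ih j (p j) (γ j)
      have e : (fun u : K × (σ → K) => ∏ i ∈ insert j s, (u.2 i + p i) ^ γ i) =
          fun u => (u.2 j + p j) ^ γ j * ∏ i ∈ s, (u.2 i + p i) ^ γ i := by
        funext u
        rw [Finset.prod_insert hj]
      rw [e, Finset.sum_insert hj]
      exact Comap.PFS_mono (by omega) h1
  have h1 := PFS_mul_pow_fst (key Finset.univ) c α
  exact Comap.PFS_mono (by omega) h1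

end shift

theorem EmpS_shift {ι σ : Type} [Fintype σ] {w : ι → ℕ} {S S' : Set (ℤ × (σ → ℤ))}
    (h : EmpS w S') (u : ℤ × (σ → ℤ)) (hS : ∀ m ∈ S, m + u ∈ S') : EmpS w S := by
  obtain ⟨K, _, _, X, Y, hX, hY, hf⟩ := h
  have hφ : Function.Injective (fun m : ℤ × (σ → ℤ) => m + u) := add_left_injective u
  refine ⟨K, _, inferInstance, X, Y, hX, hY, ?_⟩
  intro f hfS hfL
  have hch : ∀ i m, ch (X i) (Y i) (m + u) = ch (X i) (Y i) u * ch (X i) (Y i) m := by
    intro i m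
    unfold ch
    rw [Prod.fst_add, Prod.snd_add, zpow_add₀ (hX i)]
    have h1 : ∏ j, Y i j ^ (m.2 + u.2) j = (∏ j, Y i j ^ m.2 j) * ∏ j, Y i j ^ u.2 j := by
      rw [← Finset.prod_mul_distrib]
      refine Finset.prod_congr rfl fun j _ => ?_
      rw [Pi.add_apply, zpow_add₀ (hY i j)]
    rw [h1]
    ring
  have h1 : f.mapDomain (fun m : ℤ × (σ → ℤ) => m + u) = 0 := by
    classical
    apply hf
    · intro m hm
      have := Finsupp.mapDomain_support hm
      simp only [Finset.mem_image] at this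
      obtain ⟨m', hm', rfl⟩ := this
      exact hS m' (hfS hm')
    · intro i α γ hw
      have h2 := Comap.prS_of_LMS (hfL i) (PFS_shift (K := K) (σ := σ) hw (u.1 : K)
        (fun j => (u.2 j : K)))
      have h3 : Comap.prS f (X i) (Y i)
          (fun v : K × (σ → K) => (v.1 + (u.1 : K)) ^ α * ∏ j, (v.2 j + (u.2 j : K)) ^ γ j) =
          ∑ m ∈ f.support, f m * (((m.1 : K) + (u.1 : K)) ^ α *
            ∏ j, ((m.2 j : K) + (u.2 j : K)) ^ γ j) * ch (X i) (Y i) m := rfl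
      rw [h3] at h2
      unfold mo
      rw [Finsupp.sum_mapDomain_index (by intro m; simp) (by intro m a b; ring)]
      unfold Finsupp.sum
      have h4 : ∑ m ∈ f.support, f m * (((m + u).1 : K) ^ α * ∏ j, ((m + u).2 j : K) ^ γ j) *
          ch (X i) (Y i) (m + u) = ch (X i) (Y i) u * ∑ m ∈ f.support, f m *
            (((m.1 : K) + (u.1 : K)) ^ α * ∏ j, ((m.2 j : K) + (u.2 j : K)) ^ γ j) *
            ch (X i) (Y i) m := by
        rw [Finset.mul_sum]
        refine Finset.sum_congr rfl fun m _ => ?_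
        have e1 : (((m + u).1 : ℤ) : K) = (m.1 : K) + (u.1 : K) := by
          rw [Prod.fst_add]
          push_cast
          rfl
        have e2 : ∀ j, (((m + u).2 j : ℤ) : K) = (m.2 j : K) + (u.2 j : K) := by
          intro j
          rw [Prod.snd_add, Pi.add_apply]
          push_cast
          rfl
        rw [hch, e1, Finset.prod_congr rfl fun j _ => by rw [e2 j]]
        ring
      rw [h4, h2, mul_zero]
  exact (Finsupp.mapDomain_injective hφ) (by rw [h1, Finsupp.mapDomain_zero])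

/-! ### Leading coefficients -/

section lead
variable {K : Type} [Field K] {σ : Type} [Fintype σ]

theorem LMS_coeff {g : (ℤ × (σ → ℤ)) →₀ LaurentSeries K} {x : K} {y : σ → K} {w : ℕ}
    (h : LMS g (cst x) (fun j => cst (y j)) w) (n : ℤ) :
    LMS (g.mapRange (fun u => u.coeff n) rfl) x y w := by
  intro α γ hw
  have h1 := h α γ hw
  unfold mo at h1 ⊢
  rw [Finsupp.sum_mapRange_index (by simp)]
  have h2 := congrArg (fun u : LaurentSeries K => u.coeff n) h1
  simp only [HahnSeries.coeff_zero] at h2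
  rw [← h2]
  unfold Finsupp.sum
  rw [HahnSeries.coeff_sum]
  apply sum_congr rfl
  intro m _
  have e : (g m * (((m.1 : ℤ) : LaurentSeries K) ^ α * ∏ j, ((m.2 j : ℤ) : LaurentSeries K) ^ γ j) *
      ch (cst x) (fun j => cst (y j)) m) = g m * cst (((m.1 : K) ^ α * ∏ j, (m.2 j : K) ^ γ j) *
      ch x y m) := by
    unfold ch
    simp only [cst, map_mul, map_pow, map_prod, map_intCast, map_zpow₀]
    ring
  beta_reduce
  rw [e, Pool.Agent.TH176.Nag.coeff_mul_cst]
  ring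

/-- the leading part of a nonzero family of Laurent series -/
theorem exists_leadN {E : Type} {g : E →₀ LaurentSeries K} (hg : g ≠ 0) :
    ∃ n : ℤ, g.mapRange (fun u => u.coeff n) rfl ≠ 0 ∧ (∀ m, ∀ k < n, (g m).coeff k = 0) ∧
      ∀ m, (g m).coeff n ≠ 0 → g m ≠ 0 ∧ (g m).order = n := by
  have hne : g.support.Nonempty := Finsupp.support_nonempty_iff.2 hg
  obtain ⟨m0, hm0, hmin⟩ := Finset.exists_min_image g.support (fun m => (g m).order) hne
  have hm0' : g m0 ≠ 0 := Finsupp.mem_support_iff.1 hm0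
  have hlow : ∀ m, ∀ k < (g m0).order, (g m).coeff k = 0 := by
    intro m k hk
    by_cases hm : g m = 0
    · rw [hm]; simp
    · exact HahnSeries.coeff_eq_zero_of_lt_order
        (lt_of_lt_of_le hk (hmin m (Finsupp.mem_support_iff.2 hm)))
  refine ⟨(g m0).order, ?_, hlow, ?_⟩
  · intro h
    have := DFunLike.congr_fun h m0
    simp only [Finsupp.mapRange_apply, Finsupp.coe_zero, Pi.zero_apply] at this
    exact hm0' (HahnSeries.coeff_order_eq_zero.1 this)
  · intro m hm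
    have hm1 : g m ≠ 0 := by intro h; rw [h] at hm; simp at hm
    refine ⟨hm1, le_antisymm (HahnSeries.order_le_of_coeff_ne_zero hm)
      (hmin m (Finsupp.mem_support_iff.2 hm1))⟩

/-- all orders are at least the leading one -/
theorem le_orderN {E : Type} {g : E →₀ LaurentSeries K} {n : ℤ}
    (h : ∀ m, ∀ k < n, (g m).coeff k = 0) {m : E} (hm : g m ≠ 0) : n ≤ (g m).order := by
  by_contra hlt
  exact hm (HahnSeries.coeff_order_eq_zero.1 (h m _ (not_le.1 hlt)))

/-- the leading part has an exponent outside `S` -/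
theorem lead_outN {ι : Type} {w : ι → ℕ} {S T : Set (ℤ × (σ → ℤ))} {x : ι → K} {y : ι → σ → K}
    (hS : EmpAt x y w S)
    {g : (ℤ × (σ → ℤ)) →₀ LaurentSeries K} (hg : g ≠ 0)
    (hsupp : (↑g.support : Set (ℤ × (σ → ℤ))) ⊆ S ∪ T)
    (hLM : ∀ i, LMS g (cst (x i)) (fun j => cst (y i j)) (w i)) :
    ∃ m ∈ T, g m ≠ 0 ∧ ∀ m', g m' ≠ 0 → (g m).order ≤ (g m').order := by
  obtain ⟨n, hn1, hn2, hn3⟩ := exists_leadN hg
  by_contra hcon
  push Not at hcon
  apply hn1
  apply hS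
  · intro m hm
    have hm' : (g m).coeff n ≠ 0 := by simpa using hm
    obtain ⟨h1, h2⟩ := hn3 m hm'
    rcases hsupp (Finset.mem_coe.2 (Finsupp.mem_support_iff.2 h1)) with h | h
    · exact h
    · exfalso
      obtain ⟨m', h3, h4⟩ := hcon m h h1
      have := le_orderN hn2 h3
      omega
  · exact fun i => LMS_coeff (hLM i) n

/-- the linear form -/
def lf (a0 : ℤ) (a : σ → ℤ) (m : ℤ × (σ → ℤ)) : ℤ := a0 * m.1 + ∑ i, a i * m.2 i

/-- scaling the variables -/
noncomputable def scN (a0 : ℤ) (a : σ → ℤ) (f : (ℤ × (σ → ℤ)) →₀ LaurentSeries K) :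
    (ℤ × (σ → ℤ)) →₀ LaurentSeries K :=
  Finsupp.onFinset f.support (fun m => f m * tv K ^ (-(lf a0 a m))) (fun m hm => by
    rw [Finsupp.mem_support_iff]
    intro h
    apply hm
    rw [h, zero_mul])

theorem scN_apply (a0 : ℤ) (a : σ → ℤ) (f : (ℤ × (σ → ℤ)) →₀ LaurentSeries K)
    (m : ℤ × (σ → ℤ)) : scN a0 a f m = f m * tv K ^ (-(lf a0 a m)) := rfl

theorem scN_support (a0 : ℤ) (a : σ → ℤ) (f : (ℤ × (σ → ℤ)) →₀ LaurentSeries K) :
    (scN a0 a f).support = f.support := by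
  ext m
  rw [Finsupp.mem_support_iff, Finsupp.mem_support_iff, scN_apply]
  simp [zpow_ne_zero _ (Pool.Agent.TH698.NagT3.tv_ne (K := K))]

theorem LMS_scN {a0 : ℤ} {a : σ → ℤ} {f : (ℤ × (σ → ℤ)) →₀ LaurentSeries K}
    {x : LaurentSeries K} {y : σ → LaurentSeries K} {w : ℕ}
    (h : LMS f (tv K ^ (-a0) * x) (fun j => tv K ^ (-a j) * y j) w) : LMS (scN a0 a f) x y w := by
  intro α γ hw
  have h1 := h α γ hw
  have ht : tv K ≠ 0 := Pool.Agent.TH698.NagT3.tv_ne
  unfold mo Finsupp.sum at h1 ⊢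
  rw [scN_support, ← h1]
  apply sum_congr rfl
  intro m _
  have e : ch (tv K ^ (-a0) * x) (fun j => tv K ^ (-a j) * y j) m =
      tv K ^ (-(lf a0 a m)) * ch x y m := by
    unfold ch lf
    have e1 : ∏ j, (tv K ^ (-a j) * y j) ^ m.2 j =
        tv K ^ (∑ j, -a j * m.2 j) * ∏ j, y j ^ m.2 j := by
      rw [Comap.zpow_sum' ht, ← Finset.prod_mul_distrib]
      refine Finset.prod_congr rfl fun j _ => ?_
      rw [mul_zpow, ← zpow_mul]
    have e2 : -(a0 * m.1 + ∑ i, a i * m.2 i) = -a0 * m.1 + ∑ j, -a j * m.2 j := by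
      rw [neg_add, ← Finset.sum_neg_distrib, neg_mul]
      congr 1
      exact Finset.sum_congr rfl fun j _ => (neg_mul _ _).symm
    rw [e1, mul_zpow, ← zpow_mul, e2, zpow_add₀ ht]
    ring
  beta_reduce
  rw [scN_apply, e]
  ring

theorem scN_order {a0 : ℤ} {a : σ → ℤ} {f : (ℤ × (σ → ℤ)) →₀ LaurentSeries K}
    {m : ℤ × (σ → ℤ)} (hm : f m ≠ 0) : (scN a0 a f m).order = (f m).order - lf a0 a m := by
  rw [scN_apply, HahnSeries.order_mul hm (zpow_ne_zero _ Pool.Agent.TH698.NagT3.tv_ne),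
    Pool.Agent.TH698.NagT3.tv_zpow_order]
  ring

end lead

/-! ### Generic points -/

theorem Emp_genericN {ι σ : Type} [Finite ι] [Fintype σ] {w : ι → ℕ} {S : Set (ℤ × (σ → ℤ))}
    (hfin : S.Finite) (hpos : ∀ m ∈ S, 0 ≤ m.1 ∧ ∀ j, 0 ≤ m.2 j) (h : EmpS w S) {x : ι → ℂ}
    {y : ι → σ → ℂ}
    (hxy : AlgebraicIndependent ℤ (fun q : ι × Option σ => Option.elim q.2 (x q.1) (y q.1))) :
    EmpAt x y w S := by
  classical
  have : Fintype ι := Fintype.ofFinite ι
  obtain ⟨T, hT⟩ := hfin.exists_finset_coe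
  rw [← hT] at h ⊢
  obtain ⟨G, hG0, hG⟩ := minor_fin T (fun m hm => hpos m (by rw [← hT]; exact hm)) h
  apply hG ℂ x y
  have h1 : MvPolynomial.eval₂ (Int.castRingHom ℂ)
      (fun q : ι × Option σ => Option.elim q.2 (x q.1) (y q.1)) G =
      MvPolynomial.aeval (fun q : ι × Option σ => Option.elim q.2 (x q.1) (y q.1)) G := by
    rw [MvPolynomial.aeval_def, algebraMap_int_eq]
  rw [h1]
  intro h0
  exact hG0 (hxy (by rw [h0, map_zero]))

/-! ### The cut -/

theorem Emp_cutN {ι κ σ : Type} [Finite ι] [Finite κ] [Fintype σ] {w : ι → ℕ} {v : κ → ℕ}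
    {S T : Set (ℤ × (σ → ℤ))} (hS : S.Finite) (hT : T.Finite)
    (hS0 : ∀ m ∈ S, 0 ≤ m.1 ∧ ∀ j, 0 ≤ m.2 j) (hT0 : ∀ m ∈ T, 0 ≤ m.1 ∧ ∀ j, 0 ≤ m.2 j)
    (a0 : ℤ) (a : σ → ℤ) (hcut : ∀ m ∈ S, ∀ m' ∈ T, lf a0 a m < lf a0 a m')
    (h1 : EmpS w S) (h2 : EmpS v T) : EmpS (Sum.elim w v) (S ∪ T) := by
  obtain ⟨z, hz0⟩ := Pool.Agent.TH698.NagT3.exists_indep ((ι ⊕ κ) × Option σ)
  have hz : AlgebraicIndependent ℤ z := hz0.restrictScalars (RingHom.injective_int (algebraMap ℤ ℚ))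
  have hzne : ∀ q, z q ≠ 0 := fun q => hz.ne_zero q
  have k1 := Emp_genericN hS hS0 h1 (x := fun i => z (Sum.inl i, none))
    (y := fun i j => z (Sum.inl i, some j)) (by
      have e : (fun q : ι × Option σ => Option.elim q.2 (z (Sum.inl q.1, none))
          (fun j => z (Sum.inl q.1, some j))) =
          z ∘ fun q : ι × Option σ => (Sum.inl q.1, q.2) := by
        funext q
        obtain ⟨i, j⟩ := q
        cases j <;> rfl
      rw [e]
      refine hz.comp (fun q : ι × Option σ => (Sum.inl q.1, q.2)) ?_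
      rintro ⟨i, j⟩ ⟨i', j'⟩ h
      simpa using h)
  have k2 := Emp_genericN hT hT0 h2 (x := fun i => z (Sum.inr i, none))
    (y := fun i j => z (Sum.inr i, some j)) (by
      have e : (fun q : κ × Option σ => Option.elim q.2 (z (Sum.inr q.1, none))
          (fun j => z (Sum.inr q.1, some j))) =
          z ∘ fun q : κ × Option σ => (Sum.inr q.1, q.2) := by
        funext q
        obtain ⟨i, j⟩ := q
        cases j <;> rfl
      rw [e]
      refine hz.comp (fun q : κ × Option σ => (Sum.inr q.1, q.2)) ?_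
      rintro ⟨i, j⟩ ⟨i', j'⟩ h
      simpa using h)
  have ht : tv ℂ ≠ 0 := Pool.Agent.TH698.NagT3.tv_ne
  have hc : ∀ q, cst (z q) ≠ 0 := fun q => by
    intro h0
    apply hzne q
    exact HahnSeries.C_injective (h0.trans (map_zero _).symm)
  refine ⟨LaurentSeries ℂ, inferInstance, inferInstance,
    Sum.elim (fun i => cst (z (Sum.inl i, none)))
      (fun i => tv ℂ ^ (-a0) * cst (z (Sum.inr i, none))),
    Sum.elim (fun i j => cst (z (Sum.inl i, some j)))
      (fun i j => tv ℂ ^ (-a j) * cst (z (Sum.inr i, some j))), ?_, ?_, ?_⟩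
  · rintro (i | i)
    · exact hc _
    · exact mul_ne_zero (zpow_ne_zero _ ht) (hc _)
  · rintro (i | i) j
    · exact hc _
    · exact mul_ne_zero (zpow_ne_zero _ ht) (hc _)
  intro f hfS hfL
  by_contra hf0
  -- the leading part of `f`
  obtain ⟨m, hmT, hm0, hmin⟩ := lead_outN (T := T) k1 hf0 hfS (fun i => hfL (Sum.inl i))
  -- the leading part of the scaled family
  have hg0 : scN a0 a f ≠ 0 := by
    intro h
    apply hf0
    rw [← Finsupp.support_eq_empty, ← scN_support a0 a, h, Finsupp.support_zero]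
  have hgS : (↑(scN a0 a f).support : Set (ℤ × (σ → ℤ))) ⊆ T ∪ S := by
    rw [scN_support, Set.union_comm]
    exact hfS
  obtain ⟨m', hmS, hm0', hmin'⟩ := lead_outN (T := S) k2 hg0 hgS
    (fun j => LMS_scN (hfL (Sum.inr j)))
  have hfm' : f m' ≠ 0 := by
    rw [← Finsupp.mem_support_iff, ← scN_support a0 a, Finsupp.mem_support_iff]
    exact hm0'
  have hgm : scN a0 a f m ≠ 0 := by
    rw [← Finsupp.mem_support_iff, scN_support, Finsupp.mem_support_iff]
    exact hm0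
  have e1 := hmin m' hfm'
  have e2 := hmin' m hgm
  rw [scN_order hfm', scN_order hm0] at e2
  have e3 := hcut m' hmS m hmT
  linarith

theorem t_CUTE : S_CUTE := by
  intro ι κ σ _ _ _ w v S T hS hT c h h1 h2
  classical
  obtain ⟨a0, a, hab⟩ := exists_dirN hS hT c h
  -- a shift into the quadrant
  obtain ⟨N, hN⟩ : ∃ N : ℤ, ∀ m ∈ S ∪ T, -N ≤ m.1 ∧ ∀ j, -N ≤ m.2 j := by
    have hf : (S ∪ T).Finite := hS.union hT
    refine ⟨∑ m ∈ hf.toFinset, ((m.1.natAbs : ℤ) + ∑ j, ((m.2 j).natAbs : ℤ)), fun m hm => ?_⟩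
    have h3 : ((m.1.natAbs : ℤ) + ∑ j, ((m.2 j).natAbs : ℤ)) ≤
        ∑ m ∈ hf.toFinset, ((m.1.natAbs : ℤ) + ∑ j, ((m.2 j).natAbs : ℤ)) :=
      single_le_sum (f := fun m : ℤ × (σ → ℤ) => ((m.1.natAbs : ℤ) + ∑ j, ((m.2 j).natAbs : ℤ)))
        (fun _ _ => by positivity) (hf.mem_toFinset.2 hm)
    have h4 : 0 ≤ ∑ j, ((m.2 j).natAbs : ℤ) := Finset.sum_nonneg fun j _ => by positivity
    refine ⟨by omega, fun j => ?_⟩
    have h5 : ((m.2 j).natAbs : ℤ) ≤ ∑ j, ((m.2 j).natAbs : ℤ) :=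
      single_le_sum (f := fun j => ((m.2 j).natAbs : ℤ)) (fun _ _ => by positivity)
        (Finset.mem_univ j)
    omega
  obtain ⟨u, hu⟩ : ∃ u : ℤ × (σ → ℤ), u = (N, fun _ => N) := ⟨_, rfl⟩
  have hlf : ∀ m : ℤ × (σ → ℤ), lf a0 a (m + u) = lf a0 a m + lf a0 a u := by
    intro m
    unfold lf
    rw [Prod.fst_add, Prod.snd_add]
    have : ∑ i, a i * (m.2 + u.2) i = ∑ i, a i * m.2 i + ∑ i, a i * u.2 i := by
      rw [← Finset.sum_add_distrib]
      exact Finset.sum_congr rfl fun i _ => by rw [Pi.add_apply, mul_add]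
    rw [this]
    ring
  have key : EmpS (Sum.elim w v) ((fun m => m + u) '' S ∪ (fun m => m + u) '' T) := by
    refine Emp_cutN (hS.image _) (hT.image _) ?_ ?_ a0 a ?_ ?_ ?_
    · rintro _ ⟨m, hm, rfl⟩
      obtain ⟨e1, e2⟩ := hN m (Or.inl hm)
      rw [hu]
      refine ⟨by show 0 ≤ m.1 + N; omega, fun j => ?_⟩
      have := e2 j
      show 0 ≤ m.2 j + N
      omega
    · rintro _ ⟨m, hm, rfl⟩
      obtain ⟨e1, e2⟩ := hN m (Or.inr hm)
      rw [hu]
      refine ⟨by show 0 ≤ m.1 + N; omega, fun j => ?_⟩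
      have := e2 j
      show 0 ≤ m.2 j + N
      omega
    · rintro _ ⟨m, hm, rfl⟩ _ ⟨m', hm', rfl⟩
      have := hab m hm m' hm'
      show lf a0 a (m + u) < lf a0 a (m' + u)
      rw [hlf, hlf]
      have h5 : lf a0 a m < lf a0 a m' := this
      linarith
    · refine EmpS_shift h1 (-u) ?_
      rintro _ ⟨m, hm, rfl⟩
      show m + u + -u ∈ S
      rw [add_neg_cancel_right]
      exact hm
    · refine EmpS_shift h2 (-u) ?_
      rintro _ ⟨m, hm, rfl⟩
      show m + u + -u ∈ T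
      rw [add_neg_cancel_right]
      exact hm
  refine EmpS_shift key u ?_
  rintro m (hm | hm)
  · left
    exact ⟨m, hm, rfl⟩
  · right
    exact ⟨m, hm, rfl⟩

theorem t_CUTS : S_CUTS := by
  intro ι κ σ _ _ _ w v S T c h h1 h2
  classical
  obtain ⟨A, a1, a2, a3⟩ := h1
  obtain ⟨B, b1, b2, b3⟩ := h2
  have hsep : ∀ m ∈ (↑A : Set (ℤ × (σ → ℤ))), ∀ m' ∈ (↑B : Set (ℤ × (σ → ℤ))),
      (m.1 : ℝ) + ∑ i, c i * (m.2 i : ℝ) < (m'.1 : ℝ) + ∑ i, c i * (m'.2 i : ℝ) :=
    fun m hm m' hm' => h m (a1 hm) m' (b1 hm')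
  refine ⟨A ∪ B, ?_, ?_, ?_⟩
  · rw [coe_union]
    exact Set.union_subset_union a1 b1
  · rw [card_union_of_disjoint, a2, b2]
    · unfold nc
      rw [Fintype.sum_sum_type]
      simp
    · rw [disjoint_left]
      intro m hm hm'
      exact lt_irrefl _ (hsep m (mem_coe.2 hm) m (mem_coe.2 hm'))
  · rw [coe_union]
    exact t_CUTE ι κ σ w v _ _ A.finite_toSet B.finite_toSet c hsep a3 b3

end Pool.Agent.H349.BW
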